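import Pool.Agent.W528.HD.Stm
import Pool.Agent.W528.HA.Est

/-!
# HD-ONE: p-adic bound for sums in one variable
-/

set_option autoImplicit false

namespace Pool.Agent.W108.HD.ONE

open Finset Polynomial Pool.Agent.W528.HA Pool.Agent.W528.HB Pool.Agent.W528.HD

section

variable {c : ℕ} [Fact c.Prime] {L : Type} [Field L] [Fintype L] [CharP L c]

omit [Fintype L] in
lemma psi_norm (ψ : AddChar L (PadicAlgCl c)) (y : L) : ‖ψ y‖ = 1 := by
  have h1 : ψ y ^ c = 1 := by
    rw [← AddChar.map_nsmul_eq_pow, nsmul_eq_mul, CharP.cast_eq_zero, zero_mul,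
      AddChar.map_zero_eq_one]
  exact norm_pow_one (Nat.Prime.ne_zero Fact.out) h1

lemma lam_le (θ : MulChar L (PadicAlgCl c)) (ψ : AddChar L (PadicAlgCl c)) :
    ‖gaussSum θ ψ‖ ≤ 1 := by
  unfold gaussSum
  apply norm_sum_le_one
  intro a _
  rw [norm_mul, psi_norm, mul_one]
  exact mulChar_norm_le _ _

lemma add_pow_le {x y : PadicAlgCl c} {D : ℕ} {B : ℝ} (hx : ‖x‖ ^ D ≤ B) (hy : ‖y‖ ^ D ≤ B) :
    ‖x + y‖ ^ D ≤ B := by
  have h := IsUltrametricDist.norm_add_le_max x y
  rcases le_total ‖x‖ ‖y‖ with h1 | h1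
  · rw [max_eq_right h1] at h
    exact (pow_le_pow_left₀ (norm_nonneg _) h D).trans hy
  · rw [max_eq_left h1] at h
    exact (pow_le_pow_left₀ (norm_nonneg _) h D).trans hx

lemma sum_pow_le {α : Type} (s : Finset α) (f : α → PadicAlgCl c) {D : ℕ} {B : ℝ} (hD : 1 ≤ D)
    (hB : 0 ≤ B) (h : ∀ a ∈ s, ‖f a‖ ^ D ≤ B) : ‖∑ a ∈ s, f a‖ ^ D ≤ B := by
  classical
  induction s using Finset.induction_on with
  | empty =>
    rw [sum_empty, norm_zero, zero_pow (by omega)]
    exact hB
  | insert a s ha ih =>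
    rw [sum_insert ha]
    exact add_pow_le (h a (mem_insert_self a s)) (ih fun b hb => h b (mem_insert_of_mem hb))

/-- the product of the values of the additive character -/
noncomputable def PP (ψ : AddChar L (PadicAlgCl c)) (b : ℕ → L) (n : ℕ) (t : L) : PadicAlgCl c :=
  ∏ k ∈ range n, ψ (b (k + 1) * t ^ (k + 1))

/-- the sums -/
noncomputable def II (ψ : AddChar L (PadicAlgCl c)) (b : ℕ → L) (n : ℕ)
    (θ : MulChar L (PadicAlgCl c)) : PadicAlgCl c := ∑ t : L, θ⁻¹ t * PP ψ b n t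

omit [Fintype L] in
lemma PP_norm (ψ : AddChar L (PadicAlgCl c)) (b : ℕ → L) (n : ℕ) (t : L) : ‖PP ψ b n t‖ = 1 := by
  unfold PP
  rw [norm_prod]
  exact prod_eq_one fun k _ => psi_norm ψ _

lemma II_norm (ψ : AddChar L (PadicAlgCl c)) (b : ℕ → L) (n : ℕ) (θ : MulChar L (PadicAlgCl c)) :
    ‖II ψ b n θ‖ ≤ 1 := by
  unfold II
  apply norm_sum_le_one
  intro a _
  rw [norm_mul, PP_norm, mul_one]
  exact mulChar_norm_le _ _

lemma lam_pow (hGN : GN) (hSA : SA) {ψ : AddChar L (PadicAlgCl c)} (hψ : ψ.IsPrimitive)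
    (θ : MulChar L (PadicAlgCl c)) (k : ℕ) : ‖gaussSum θ ψ‖ ^ k ≤ ‖gaussSum (θ ^ k) ψ‖ := by
  induction k with
  | zero =>
    rw [pow_zero, pow_zero, (hGN c L ψ hψ).1]
  | succ k ih =>
    rw [pow_succ, pow_succ]
    refine le_trans ?_ (hSA c L (θ ^ k) θ ψ hψ)
    exact mul_le_mul_of_nonneg_right ih (norm_nonneg _)

lemma lam_pow' (hGN : GN) (hSA : SA) {ψ : AddChar L (PadicAlgCl c)} (hψ : ψ.IsPrimitive)
    (θ : MulChar L (PadicAlgCl c)) {k D : ℕ} (hk : k ≤ D) :
    ‖gaussSum θ ψ‖ ^ D ≤ ‖gaussSum (θ ^ k) ψ‖ :=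
  (pow_le_pow_of_le_one (norm_nonneg _) (lam_le θ ψ) hk).trans (lam_pow hGN hSA hψ θ k)

/-- the recursion -/
lemma rec (hIN : IN) (ψ : AddChar L (PadicAlgCl c)) (b : ℕ → L) (n : ℕ) (hb : b (n + 1) ≠ 0)
    [Fintype (MulChar L (PadicAlgCl c))] (θ : MulChar L (PadicAlgCl c)) :
    (((Fintype.card L : ℕ) : PadicAlgCl c) - 1) * II ψ b (n + 1) θ =
      ∑ η : MulChar L (PadicAlgCl c),
        gaussSum η⁻¹ ψ * η (b (n + 1)) * II ψ b n (θ * (η ^ (n + 1))⁻¹) := by
  unfold II
  rw [mul_sum]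
  simp_rw [mul_sum]
  rw [sum_comm]
  refine sum_congr rfl fun t _ => ?_
  by_cases ht : t = 0
  · rw [ht, MulChar.map_zero, zero_mul, mul_zero]
    symm
    refine sum_eq_zero fun η _ => ?_
    rw [MulChar.map_zero, zero_mul, mul_zero]
  · have h1 := hIN c L ψ (b (n + 1) * t ^ (n + 1)) (mul_ne_zero hb (pow_ne_zero _ ht))
    rw [finsum_eq_sum_of_fintype] at h1
    have h2 : PP ψ b (n + 1) t = PP ψ b n t * ψ (b (n + 1) * t ^ (n + 1)) := by
      unfold PP
      rw [prod_range_succ]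
    rw [h2]
    calc (((Fintype.card L : ℕ) : PadicAlgCl c) - 1) *
          (θ⁻¹ t * (PP ψ b n t * ψ (b (n + 1) * t ^ (n + 1))))
        = θ⁻¹ t * PP ψ b n t * ((((Fintype.card L : ℕ) : PadicAlgCl c) - 1) *
            ψ (b (n + 1) * t ^ (n + 1))) := by ring
      _ = _ := by
        rw [h1, mul_sum]
        refine sum_congr rfl fun η _ => ?_
        rw [mul_inv, inv_inv, MulChar.mul_apply, MulChar.pow_apply' η (by omega), map_mul, map_pow]
        ring

theorem key (hGN : GN) (hIN : IN) (hSA : SA) {ψ : AddChar L (PadicAlgCl c)}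
    (hψ : ψ.IsPrimitive) {D : ℕ} (hD : 1 ≤ D) (b : ℕ → L) (n : ℕ) (hn : n ≤ D) :
    (∀ θ : MulChar L (PadicAlgCl c), θ ≠ 1 → ‖II ψ b n θ‖ ^ D ≤ ‖gaussSum θ⁻¹ ψ‖) ∧
      ‖II ψ b n 1 - (((Fintype.card L : ℕ) : PadicAlgCl c) - 1)‖ ^ D ≤
        ‖((Fintype.card L : ℕ) : PadicAlgCl c)‖ := by
  classical
  induction n with
  | zero =>
    refine ⟨fun θ hθ => ?_, ?_⟩
    · have : II ψ b 0 θ = 0 := by
        unfold II PP
        simp only [range_zero, prod_empty, mul_one]
        exact MulChar.sum_eq_zero_of_ne_one (inv_ne_one.2 hθ)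
      rw [this, norm_zero, zero_pow (by omega)]
      exact norm_nonneg _
    · have : II ψ b 0 1 = ((Fintype.card L : ℕ) : PadicAlgCl c) - 1 := by
        unfold II PP
        simp only [range_zero, prod_empty, mul_one, inv_one]
        rw [MulChar.sum_one_eq_card_units, Fintype.card_units, Nat.cast_sub Fintype.card_pos,
          Nat.cast_one]
      rw [this, sub_self, norm_zero, zero_pow (by omega)]
      exact norm_nonneg _
  | succ n ih =>
    obtain ⟨iha, ihb⟩ := ih (by omega)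
    by_cases hb : b (n + 1) = 0
    · have h0 : ∀ θ, II ψ b (n + 1) θ = II ψ b n θ := by
        intro θ
        unfold II PP
        refine sum_congr rfl fun t _ => ?_
        rw [prod_range_succ, hb, zero_mul, AddChar.map_zero_eq_one, mul_one]
      refine ⟨fun θ hθ => ?_, ?_⟩
      · rw [h0]; exact iha θ hθ
      · rw [h0]; exact ihb
    · have : Fintype (MulChar L (PadicAlgCl c)) := Fintype.ofFinite _
      obtain ⟨q, hq⟩ : ∃ q : PadicAlgCl c, q = ((Fintype.card L : ℕ) : PadicAlgCl c) := ⟨_, rfl⟩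
      have hrec := rec hIN ψ b n hb
      have hq1 : ‖((Fintype.card L : ℕ) : PadicAlgCl c) - 1‖ = 1 := norm_card_sub_one
      have hqlt : ‖((Fintype.card L : ℕ) : PadicAlgCl c)‖ < 1 := norm_card_lt
      have hGN2 : ∀ θ : MulChar L (PadicAlgCl c), θ ≠ 1 →
        ‖gaussSum θ ψ‖ * ‖gaussSum θ⁻¹ ψ‖ = ‖((Fintype.card L : ℕ) : PadicAlgCl c)‖ :=
        (hGN c L ψ hψ).2
      rw [← hq] at hq1 hqlt ihb hGN2 hrec ⊢
      -- a single term
      have hterm : ∀ η ξ : MulChar L (PadicAlgCl c),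
          ‖gaussSum η⁻¹ ψ * η (b (n + 1)) * II ψ b n ξ‖ ^ D ≤
            ‖gaussSum η⁻¹ ψ‖ ^ D * ‖II ψ b n ξ‖ ^ D := by
        intro η ξ
        rw [norm_mul, norm_mul, ← mul_pow]
        refine pow_le_pow_left₀ (by positivity) ?_ D
        refine mul_le_mul_of_nonneg_right ?_ (norm_nonneg _)
        exact mul_le_of_le_one_right (norm_nonneg _) (mulChar_norm_le _ _)
      refine ⟨fun θ hθ => ?_, ?_⟩
      · have h1 : ‖II ψ b (n + 1) θ‖ = ‖(q - 1) * II ψ b (n + 1) θ‖ := by
          rw [norm_mul, hq1, one_mul]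
        rw [h1, hrec θ]
        refine sum_pow_le _ _ hD (norm_nonneg _) fun η _ => ?_
        refine (hterm η _).trans ?_
        have h2 := lam_pow' hGN hSA hψ η⁻¹ hn
        by_cases hc : θ * (η ^ (n + 1))⁻¹ = 1
        · have h3 : θ⁻¹ = η⁻¹ ^ (n + 1) := by
            rw [inv_pow, mul_inv_eq_one.1 hc]
          rw [h3]
          refine (mul_le_of_le_one_right (by positivity) ?_).trans h2
          exact pow_le_one₀ (norm_nonneg _) (II_norm _ _ _ _)
        · have h3 := iha _ hc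
          have h4 := hSA c L (η⁻¹ ^ (n + 1)) (θ * (η ^ (n + 1))⁻¹)⁻¹ ψ hψ
          have h5 : η⁻¹ ^ (n + 1) * (θ * (η ^ (n + 1))⁻¹)⁻¹ = θ⁻¹ := by
            rw [mul_inv, inv_inv, inv_pow]
            rw [mul_comm, mul_assoc, mul_inv_cancel, mul_one]
          rw [h5] at h4
          refine le_trans ?_ h4
          exact mul_le_mul h2 h3 (by positivity) (norm_nonneg _)
      · have h1 : ‖II ψ b (n + 1) 1 - (q - 1)‖ = ‖(q - 1) * II ψ b (n + 1) 1 - (q - 1) ^ 2‖ := by
          have : (q - 1) * II ψ b (n + 1) 1 - (q - 1) ^ 2 =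
            (q - 1) * (II ψ b (n + 1) 1 - (q - 1)) := by ring
          rw [this, norm_mul, hq1, one_mul]
        have hψ1 : ψ ≠ 1 := by
          intro h
          have := hψ (one_ne_zero (α := L))
          apply this
          rw [h]
          ext x
          simp
        rw [h1, hrec 1, ← add_sum_erase _ _ (mem_univ (1 : MulChar L (PadicAlgCl c)))]
        have h2 : gaussSum (1 : MulChar L (PadicAlgCl c))⁻¹ ψ *
              (1 : MulChar L (PadicAlgCl c)) (b (n + 1)) *
            II ψ b n (1 * ((1 : MulChar L (PadicAlgCl c)) ^ (n + 1))⁻¹) = - II ψ b n 1 := by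
          rw [inv_one, gaussSum_one_left hψ1, one_pow, inv_one, mul_one,
            MulChar.one_apply (Ne.isUnit hb)]
          ring
        rw [h2]
        have h3 : - II ψ b n 1 + ∑ η ∈ univ.erase (1 : MulChar L (PadicAlgCl c)),
              gaussSum η⁻¹ ψ * η (b (n + 1)) * II ψ b n (1 * (η ^ (n + 1))⁻¹) - (q - 1) ^ 2
            = (-(II ψ b n 1 - (q - 1)) + -((q - 1) * q)) +
              ∑ η ∈ univ.erase (1 : MulChar L (PadicAlgCl c)),
                gaussSum η⁻¹ ψ * η (b (n + 1)) * II ψ b n (1 * (η ^ (n + 1))⁻¹) := by ring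
        rw [h3]
        refine add_pow_le (add_pow_le ?_ ?_) ?_
        · rw [norm_neg]
          exact ihb
        · rw [norm_neg, norm_mul, hq1, one_mul]
          calc ‖q‖ ^ D ≤ ‖q‖ ^ 1 := pow_le_pow_of_le_one (norm_nonneg _) hqlt.le hD
            _ = ‖q‖ := pow_one _
        · refine sum_pow_le _ _ hD (norm_nonneg _) fun η hη => ?_
          have hη1 : η ≠ 1 := (mem_erase.1 hη).1
          refine (hterm η _).trans ?_
          rw [one_mul]
          by_cases hc : η ^ (n + 1) = 1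
          · have hn1 : n ≠ 0 := by
              rintro rfl
              rw [zero_add, pow_one] at hc
              exact hη1 hc
            have h4 : ‖gaussSum η⁻¹ ψ‖ ^ D ≤ ‖gaussSum η⁻¹ ψ‖ ^ (n + 1) :=
              pow_le_pow_of_le_one (norm_nonneg _) (lam_le _ _) hn
            have h5 := lam_pow hGN hSA hψ η⁻¹ n
            have h6 : η⁻¹ ^ n = η := by
              rw [inv_pow]
              rw [pow_succ] at hc
              exact inv_eq_of_mul_eq_one_right hc
            rw [h6] at h5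
            refine (mul_le_of_le_one_right (by positivity)
              (pow_le_one₀ (norm_nonneg _) (II_norm _ _ _ _))).trans ?_
            refine h4.trans ?_
            rw [pow_succ, ← hGN2 η hη1]
            exact mul_le_mul_of_nonneg_right h5 (norm_nonneg _)
          · have h4 := lam_pow' hGN hSA hψ η⁻¹ hn
            have h5 := iha (η ^ (n + 1))⁻¹ (inv_ne_one.2 hc)
            rw [inv_inv] at h5
            rw [inv_pow] at h4
            rw [← hGN2 _ hc, mul_comm ‖gaussSum (η ^ (n + 1)) ψ‖]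
            exact mul_le_mul h4 h5 (by positivity) (norm_nonneg _)

end

theorem main (hGN : GN) (hIN : IN) (hSA : SA) : ONE := by
  intro c _ L _ _ _ ψ hψ D hD g hg
  classical
  obtain ⟨h1, h2⟩ := key hGN hIN hSA hψ hD g.coeff D le_rfl
  have hPP : ∀ t : L, ψ (g.eval t) = ψ (g.coeff 0) * PP ψ g.coeff D t := by
    intro t
    rw [Polynomial.eval_eq_sum_range' (Nat.lt_succ_of_le hg), sum_range_succ', pow_zero, mul_one,
      AddChar.map_add_eq_mul, mul_comm]
    congr 1
    unfold PP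
    generalize D = m
    induction m with
    | zero => simp
    | succ m ih => rw [sum_range_succ, prod_range_succ, AddChar.map_add_eq_mul, ih]
  refine ⟨?_, fun θ hθ => ?_⟩
  · have e1 : ∑ t : L, ψ (g.eval t) = ψ (g.coeff 0) *
        (((Fintype.card L : ℕ) : PadicAlgCl c) +
          (II ψ g.coeff D 1 - (((Fintype.card L : ℕ) : PadicAlgCl c) - 1))) := by
      have e2 : ∑ t : L, PP ψ g.coeff D t = 1 + II ψ g.coeff D 1 := by
        unfold II
        rw [← add_sum_erase _ _ (mem_univ (0 : L)), ← add_sum_erase _ (fun t : L =>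
          (1 : MulChar L (PadicAlgCl c))⁻¹ t * PP ψ g.coeff D t) (mem_univ (0 : L))]
        have e3 : PP ψ g.coeff D 0 = 1 := by
          unfold PP
          refine prod_eq_one fun k _ => ?_
          rw [zero_pow (by omega), mul_zero, AddChar.map_zero_eq_one]
        rw [e3, MulChar.map_zero, zero_mul, zero_add]
        congr 1
        refine sum_congr rfl fun t ht => ?_
        rw [inv_one, MulChar.one_apply (Ne.isUnit (mem_erase.1 ht).1), one_mul]
      simp_rw [hPP]
      rw [← mul_sum, e2]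
      ring
    rw [e1, norm_mul, psi_norm, one_mul]
    refine add_pow_le ?_ h2
    calc ‖((Fintype.card L : ℕ) : PadicAlgCl c)‖ ^ D
        ≤ ‖((Fintype.card L : ℕ) : PadicAlgCl c)‖ ^ 1 :=
          pow_le_pow_of_le_one (norm_nonneg _) norm_card_lt.le hD
      _ = _ := pow_one _
  · have e1 : ∑ t : L, θ t * ψ (g.eval t) = ψ (g.coeff 0) * II ψ g.coeff D θ⁻¹ := by
      unfold II
      rw [mul_sum]
      refine sum_congr rfl fun t _ => ?_
      rw [hPP, inv_inv]
      ring
    have e2 := h1 θ⁻¹ (inv_ne_one.2 hθ)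
    rw [inv_inv] at e2
    rw [e1, norm_mul, psi_norm, one_mul]
    exact e2

end Pool.Agent.W108.HD.ONE
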